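import Pool.Agent.N119.PS.Stm3

/-!
# Project PSC3 (helper119), part INV (helper771): invariance and cocycle identities
-/

set_option autoImplicit false

namespace Pool.Agent.N771.PSC3

open Pool.Agent.H472R3 Pool.Agent.H67R3.FSR Pool.Agent.H67R4.SR Pool.Agent.N119.PS

variable {N : ℕ}

theorem dist_shift (A : FTree N) (g r : FreeGroup (Fin N)) (y p : A.T) :
    dist (g • y) ((g * r) • p) = dist y (r • p) := by
  rw [mul_smul, A.isometric]

theorem gpT_shift (A : FTree N) (g r s : FreeGroup (Fin N)) (y p : A.T) :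
    gpT (g • y) ((g * r) • p) ((g * s) • p) = gpT y (r • p) (s • p) := by
  unfold gpT
  rw [dist_shift, dist_shift, mul_smul, mul_smul, A.isometric]

theorem t (hAPP : S_APP) (hSHF : S_SHF) : S_INV := by
  intro N A hA
  obtain ⟨h1, h2⟩ := hAPP N A hA
  refine ⟨?_, ?_, ?_, ?_⟩
  · intro g ξ y z
    obtain ⟨n0, hn0⟩ := h1 (g • ξ) y (g • y) (g • z)
    obtain ⟨n1, hn1⟩ := h1 ξ y y z
    obtain ⟨a, b, hab⟩ := hSHF N g ξ
    have e0 := hn0 (n0 + n1 + a) (by omega)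
    have e1 := hn1 (n0 + n1 + b) (by omega)
    rw [hab, dist_shift, dist_shift, e1] at e0
    exact e0.symm
  · intro ξ y z w
    obtain ⟨n0, hn0⟩ := h1 ξ y y w
    obtain ⟨n1, hn1⟩ := h1 ξ y y z
    obtain ⟨n2, hn2⟩ := h1 ξ y z w
    rw [← hn0 (n0 + n1 + n2) (by omega), ← hn1 (n0 + n1 + n2) (by omega),
      ← hn2 (n0 + n1 + n2) (by omega)]
    ring
  · intro g q y
    obtain ⟨n0, hn0⟩ := h2 (g • q) y y (g • y)
    obtain ⟨n1, hn1⟩ := h2 q y y y
    obtain ⟨a, b, hab⟩ := hSHF N g q.1.1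
    obtain ⟨a', b', hab'⟩ := hSHF N g q.1.2
    have e0 := hn0 (n0 + n1 + a) (n0 + n1 + a') (by omega) (by omega)
    have e1 := hn1 (n0 + n1 + b) (n0 + n1 + b') (by omega) (by omega)
    have f1 : (g • q).1.1 = g • q.1.1 := rfl
    have f2 : (g • q).1.2 = g • q.1.2 := rfl
    rw [f1, f2, hab, hab', gpT_shift, e1] at e0
    exact e0.symm
  · intro q y z
    obtain ⟨n0, hn0⟩ := h2 q y y y
    obtain ⟨n1, hn1⟩ := h2 q y y z
    obtain ⟨n2, hn2⟩ := h1 q.1.1 y y z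
    obtain ⟨n3, hn3⟩ := h1 q.1.2 y y z
    rw [← hn0 (n0 + n1 + n2 + n3) (n0 + n1 + n2 + n3) (by omega) (by omega),
      ← hn1 (n0 + n1 + n2 + n3) (n0 + n1 + n2 + n3) (by omega) (by omega),
      ← hn2 (n0 + n1 + n2 + n3) (by omega), ← hn3 (n0 + n1 + n2 + n3) (by omega)]
    unfold gpT
    ring

end Pool.Agent.N771.PSC3
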